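import Mathlib

namespace Pool.Agent.Results.MP_24e294_lc.Indispensable

/-- The ternary alphabet. -/
inductive Letter
  | a | b | c
  deriving DecidableEq

/-- Words over the ternary alphabet. -/
abbrev Word := List Letter

/-- `occ u w` is the number of occurrences of `u` as a scattered subword of `w`. -/
def occ (u w : Word) : ℕ := w.sublists.count u

/-- The pairs `(y, y')` of Salomaa's system `R`. -/
inductive Rule : Word → Word → Prop
  | ac : Rule [Letter.a, Letter.c] [Letter.c, Letter.a]
  | ab (x : Word) : Rule ([Letter.a, Letter.b] ++ x ++ [Letter.b, Letter.a])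
      ([Letter.b, Letter.a] ++ x ++ [Letter.a, Letter.b])
  | bc (x : Word) : Rule ([Letter.b, Letter.c] ++ x ++ [Letter.c, Letter.b])
      ([Letter.c, Letter.b] ++ x ++ [Letter.b, Letter.c])

/-- A direct step: one rule, used in either direction, inside any context. -/
def Step (w w' : Word) : Prop :=
  ∃ x y y' z, (Rule y y' ∨ Rule y' y) ∧ w = x ++ y ++ z ∧ w' = x ++ y' ++ z

/-- `Reach n w w'`: the word `w'` is reached from `w` by `n` direct steps. -/
inductive Reach : ℕ → Word → Word → Prop
  | refl (w : Word) : Reach 0 w w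
  | tail {n : ℕ} {w v w' : Word} : Reach n w v → Step v w' → Reach (n + 1) w w'

/-- The distance: the least number of direct steps from `w` to `w'`. -/
noncomputable def dist (w w' : Word) : ℕ := sInf {n | Reach n w w'}

/-- `w' ` is reached from `w` and both have the same number of scattered occurrences of `abc`. -/
def PTrans (w w' : Word) : Prop :=
  (∃ n, Reach n w w') ∧ occ [Letter.a, Letter.b, Letter.c] w = occ [Letter.a, Letter.b, Letter.c] w'

/-- Some third word lies on a shortest way from `w` to `w'`. -/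
def Reducible (w w' : Word) : Prop :=
  ∃ v, v ≠ w ∧ v ≠ w' ∧ PTrans w v ∧ PTrans v w' ∧ dist w v + dist v w' = dist w w'

/-- An irreducible transformation of order `n`. -/
def IrreducibleOfOrder (n : ℕ) (w w' : Word) : Prop :=
  w ≠ w' ∧ PTrans w w' ∧ ¬ Reducible w w' ∧ dist w w' = n

/-- A chain of irreducible transformations, each of order less than `n`, leads from `w` to `w'`. -/
def ExpressibleBelow (n : ℕ) (w w' : Word) : Prop :=
  Relation.ReflTransGen (fun u v => ∃ m < n, IrreducibleOfOrder m u v) w w'

/-! ### Counting scattered occurrences -/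

/-- Recursive count of scattered occurrences. -/
def cnt : Word → Word → ℕ
  | [], _ => 1
  | _ :: _, [] => 0
  | u :: us, x :: w => cnt (u :: us) w + if u = x then cnt us w else 0

@[simp] theorem cnt_nil (w : Word) : cnt [] w = 1 := by
  cases w <;> rfl

@[simp] theorem cnt_cons_nil (u : Letter) (us : Word) : cnt (u :: us) [] = 0 := rfl

theorem cnt_cons_cons (u : Letter) (us : Word) (x : Letter) (w : Word) :
    cnt (u :: us) (x :: w) = cnt (u :: us) w + if u = x then cnt us w else 0 := rfl

theorem count_map_cons (u : Letter) (us : Word) (x : Letter) (l : List Word) :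
    (l.map (List.cons x)).count (u :: us) = if u = x then l.count us else 0 := by
  induction l with
  | nil => simp
  | cons h t ih =>
    rw [List.map_cons, List.count_cons, ih, List.count_cons]
    by_cases hx : u = x
    · subst hx
      simp
    · have : (x :: h == u :: us) = false := by
        simp only [beq_eq_false_iff_ne, ne_eq, List.cons.injEq, not_and]
        intro h'
        exact absurd h'.symm hx
      simp [hx, this]

theorem count_nil_map_cons (x : Letter) (l : List Word) :
    (l.map (List.cons x)).count [] = 0 := by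
  rw [List.count_eq_zero]
  simp

theorem occ_eq_cnt (u w : Word) : occ u w = cnt u w := by
  unfold occ
  rw [(List.sublists_perm_sublists' w).count_eq]
  induction w generalizing u with
  | nil =>
    cases u with
    | nil => simp
    | cons h t => simp
  | cons x w ih =>
    rw [List.sublists'_cons, List.count_append]
    cases u with
    | nil => rw [count_nil_map_cons, ih]; simp
    | cons h t => rw [count_map_cons, ih, ih, cnt_cons_cons]

theorem cnt1_append (u : Letter) (x y : Word) :
    cnt [u] (x ++ y) = cnt [u] x + cnt [u] y := by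
  induction x with
  | nil => simp
  | cons h t ih => simp only [List.cons_append, cnt_cons_cons, cnt_nil, ih]; ring

theorem cnt2_append (u v : Letter) (x y : Word) :
    cnt [u, v] (x ++ y) = cnt [u, v] x + cnt [u] x * cnt [v] y + cnt [u, v] y := by
  induction x with
  | nil => simp
  | cons h t ih =>
    simp only [List.cons_append, cnt_cons_cons, cnt_nil, ih, cnt1_append]
    split_ifs <;> ring

theorem cnt3_append (u v t : Letter) (x y : Word) :
    cnt [u, v, t] (x ++ y) = cnt [u, v, t] x + cnt [u, v] x * cnt [t] y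
      + cnt [u] x * cnt [v, t] y + cnt [u, v, t] y := by
  induction x with
  | nil => simp
  | cons h s ih =>
    simp only [List.cons_append, cnt_cons_cons, cnt_nil, ih, cnt2_append]
    split_ifs <;> ring

theorem cnt_zero (x : Word) (hx : cnt [Letter.b] x = 0) (u : Word) (hu : Letter.b ∈ u) :
    cnt u x = 0 := by
  induction x generalizing u with
  | nil =>
    cases u with
    | nil => simp at hu
    | cons h t => rfl
  | cons h t ih =>
    rw [cnt_cons_cons] at hx
    have h1 : cnt [Letter.b] t = 0 := by omega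
    have h2 : ¬ (Letter.b = h) := by
      intro hb
      rw [if_pos hb, cnt_nil] at hx
      omega
    cases u with
    | nil => simp at hu
    | cons g s =>
      rw [cnt_cons_cons, ih h1 _ hu]
      split_ifs with hg
      · subst hg
        rw [ih h1 _ (by simpa [h2] using hu)]
      · rfl

theorem split_b (w : Word) (n : ℕ) (hw : cnt [Letter.b] w = n + 1) :
    ∃ x z, w = x ++ [Letter.b] ++ z ∧ cnt [Letter.b] x = 0 ∧ cnt [Letter.b] z = n := by
  induction w with
  | nil => simp at hw
  | cons h t ih =>
    rw [cnt_cons_cons] at hw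
    by_cases hb : Letter.b = h
    · subst hb
      refine ⟨[], t, rfl, rfl, ?_⟩
      simp at hw
      exact hw
    · rw [if_neg hb, Nat.add_zero] at hw
      obtain ⟨x, z, rfl, hx, hz⟩ := ih hw
      refine ⟨h :: x, z, rfl, ?_, hz⟩
      rw [cnt_cons_cons, hx, if_neg hb]

theorem identity (w : Word) (hw : cnt [Letter.b] w = 2) :
    2 * cnt [Letter.a, Letter.b, Letter.c] w + cnt [Letter.b, Letter.a, Letter.b] w * cnt [Letter.b, Letter.c, Letter.b] w
      = cnt [Letter.a, Letter.b] w * cnt [Letter.b, Letter.c] w := by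
  obtain ⟨x, w1, rfl, hx, hw1⟩ := split_b w 1 hw
  obtain ⟨y, z, rfl, hy, hz⟩ := split_b w1 0 hw1
  have e1 := fun u hu => cnt_zero x hx u hu
  have e2 := fun u hu => cnt_zero y hy u hu
  have e3 := fun u hu => cnt_zero z hz u hu
  simp [cnt1_append, cnt2_append, cnt3_append, cnt_cons_cons, e1, e2, e3]
  ring

theorem rule_inv (x y y' z : Word) (h : Rule y y') :
    cnt [Letter.b] (x ++ y ++ z) = cnt [Letter.b] (x ++ y' ++ z) ∧
    cnt [Letter.a, Letter.b] (x ++ y ++ z) = cnt [Letter.a, Letter.b] (x ++ y' ++ z) ∧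
    cnt [Letter.b, Letter.c] (x ++ y ++ z) = cnt [Letter.b, Letter.c] (x ++ y' ++ z) := by
  cases h with
  | ac =>
    simp [cnt1_append, cnt2_append, cnt_cons_cons]
  | ab t =>
    refine ⟨?_, ?_, ?_⟩ <;>
      (simp [cnt1_append, cnt2_append, cnt_cons_cons]; try ring)
  | bc t =>
    refine ⟨?_, ?_, ?_⟩ <;>
      (simp [cnt1_append, cnt2_append, cnt_cons_cons]; try ring)

theorem rule_bab (x y y' z : Word) (h : Rule y y') (hb : cnt [Letter.b] (x ++ y ++ z) = 2) :
    cnt [Letter.b, Letter.a, Letter.b] (x ++ y ++ z) ≤ cnt [Letter.b, Letter.a, Letter.b] (x ++ y' ++ z) + 2 ∧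
    cnt [Letter.b, Letter.a, Letter.b] (x ++ y' ++ z) ≤ cnt [Letter.b, Letter.a, Letter.b] (x ++ y ++ z) + 2 := by
  cases h with
  | ac =>
    simp [cnt1_append, cnt2_append, cnt3_append, cnt_cons_cons]
  | ab t =>
    have hx : cnt [Letter.b] x = 0 := by
      simp [cnt1_append, cnt_cons_cons] at hb
      omega
    have ht : cnt [Letter.b] t = 0 := by
      simp [cnt1_append, cnt_cons_cons] at hb
      omega
    have hz : cnt [Letter.b] z = 0 := by
      simp [cnt1_append, cnt_cons_cons] at hb
      omega
    have e1 := fun u hu => cnt_zero x hx u hu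
    have e2 := fun u hu => cnt_zero t ht u hu
    have e3 := fun u hu => cnt_zero z hz u hu
    simp [cnt1_append, cnt2_append, cnt3_append, cnt_cons_cons, e1, e2, e3]
    omega
  | bc t =>
    have hx : cnt [Letter.b] x = 0 := by
      simp [cnt1_append, cnt_cons_cons] at hb
      omega
    have ht : cnt [Letter.b] t = 0 := by
      simp [cnt1_append, cnt_cons_cons] at hb
      omega
    have hz : cnt [Letter.b] z = 0 := by
      simp [cnt1_append, cnt_cons_cons] at hb
      omega
    have e1 := fun u hu => cnt_zero x hx u hu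
    have e2 := fun u hu => cnt_zero t ht u hu
    have e3 := fun u hu => cnt_zero z hz u hu
    simp [cnt1_append, cnt2_append, cnt3_append, cnt_cons_cons, e1, e2, e3]

theorem step_inv {w w' : Word} (h : Step w w') :
    cnt [Letter.b] w = cnt [Letter.b] w' ∧ cnt [Letter.a, Letter.b] w = cnt [Letter.a, Letter.b] w' ∧
    cnt [Letter.b, Letter.c] w = cnt [Letter.b, Letter.c] w' := by
  obtain ⟨x, y, y', z, hr | hr, rfl, rfl⟩ := h
  · exact rule_inv x y y' z hr
  · obtain ⟨h1, h2, h3⟩ := rule_inv x y' y z hr
    exact ⟨h1.symm, h2.symm, h3.symm⟩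

theorem step_bab {w w' : Word} (h : Step w w') (hb : cnt [Letter.b] w = 2) :
    cnt [Letter.b, Letter.a, Letter.b] w' ≤ cnt [Letter.b, Letter.a, Letter.b] w + 2 := by
  have hs := step_inv h
  obtain ⟨x, y, y', z, hr | hr, rfl, rfl⟩ := h
  · exact (rule_bab x y y' z hr hb).2
  · exact (rule_bab x y' y z hr (hs.1 ▸ hb)).1

theorem reach_inv {n : ℕ} {w w' : Word} (h : Reach n w w') :
    cnt [Letter.b] w = cnt [Letter.b] w' ∧ cnt [Letter.a, Letter.b] w = cnt [Letter.a, Letter.b] w' ∧
    cnt [Letter.b, Letter.c] w = cnt [Letter.b, Letter.c] w' := by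
  induction h with
  | refl w => exact ⟨rfl, rfl, rfl⟩
  | tail _ hs ih =>
    obtain ⟨a1, a2, a3⟩ := ih
    obtain ⟨b1, b2, b3⟩ := step_inv hs
    exact ⟨a1.trans b1, a2.trans b2, a3.trans b3⟩

theorem reach_bab {n : ℕ} {w w' : Word} (h : Reach n w w') (hb : cnt [Letter.b] w = 2) :
    cnt [Letter.b, Letter.a, Letter.b] w' ≤ cnt [Letter.b, Letter.a, Letter.b] w + 2 * n := by
  induction h with
  | refl w => simp
  | tail hr hs ih =>
    have h1 := ih hb
    have h2 := step_bab hs ((reach_inv hr).1 ▸ hb)
    omega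

/-! ### The class of words used -/

/-- Words with two `b`s and with prescribed Parikh matrix entries. -/
def Cls (q : ℕ) (w : Word) : Prop :=
  cnt [Letter.b] w = 2 ∧ cnt [Letter.a, Letter.b] w = q ∧ cnt [Letter.b, Letter.c] w = q ∧ 2 * cnt [Letter.a, Letter.b, Letter.c] w + q = q * q

theorem Cls.dichotomy {q : ℕ} (hq : q.Prime) {w : Word} (h : Cls q w) :
    cnt [Letter.b, Letter.a, Letter.b] w = 1 ∨ cnt [Letter.b, Letter.a, Letter.b] w = q := by
  obtain ⟨h1, h2, h3, h4⟩ := h
  have h5 := identity w h1
  rw [h2, h3] at h5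
  have h6 : cnt [Letter.b, Letter.a, Letter.b] w * cnt [Letter.b, Letter.c, Letter.b] w = q := by omega
  exact (Nat.dvd_prime hq).1 ⟨_, h6.symm⟩

theorem Cls.of_trans {q : ℕ} {w w' : Word} (h : Cls q w) (ht : PTrans w w') : Cls q w' := by
  obtain ⟨⟨n, hn⟩, ho⟩ := ht
  obtain ⟨h1, h2, h3, h4⟩ := h
  obtain ⟨e1, e2, e3⟩ := reach_inv hn
  rw [occ_eq_cnt, occ_eq_cnt] at ho
  exact ⟨e1 ▸ h1, e2 ▸ h2, e3 ▸ h3, ho ▸ h4⟩

/-! ### Connectivity -/

theorem Reach.trans {n m : ℕ} {u v w : Word} (h : Reach n u v) (h' : Reach m v w) :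
    Reach (n + m) u w := by
  induction h' with
  | refl w => exact h
  | tail _ hs ih => exact Reach.tail (ih h) hs

theorem perm_reach {s t : Word} (h : s.Perm t) (hs : Letter.b ∉ s) :
    ∀ p r : Word, ∃ n, Reach n (p ++ s ++ r) (p ++ t ++ r) := by
  induction h with
  | nil => intro p r; exact ⟨0, Reach.refl _⟩
  | cons x _ ih =>
    intro p r
    obtain ⟨n, hn⟩ := ih (fun hb => hs (List.mem_cons_of_mem _ hb)) (p ++ [x]) r
    refine ⟨n, ?_⟩
    simpa using hn
  | swap x y l =>
    intro p r
    cases x <;> cases y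
    all_goals first
      | exact ⟨0, Reach.refl _⟩
      | (exfalso; revert hs; simp; done)
      | skip
    · refine ⟨1, Reach.tail (Reach.refl _) ⟨p, [Letter.c, Letter.a], [Letter.a, Letter.c], l ++ r, Or.inr Rule.ac, ?_, ?_⟩⟩
        <;> simp
    · refine ⟨1, Reach.tail (Reach.refl _) ⟨p, [Letter.a, Letter.c], [Letter.c, Letter.a], l ++ r, Or.inl Rule.ac, ?_, ?_⟩⟩
        <;> simp
  | trans h1 _ ih1 ih2 =>
    intro p r
    obtain ⟨n, hn⟩ := ih1 hs p r
    obtain ⟨m, hm⟩ := ih2 (fun hb => hs (h1.mem_iff.2 hb)) p r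
    exact ⟨n + m, hn.trans hm⟩

theorem phase1 (k : ℕ) (X : Word) : ∃ n, Reach n
    (List.replicate k Letter.a ++ [Letter.b] ++ X ++ [Letter.b] ++ List.replicate k Letter.a)
    ([Letter.b] ++ (List.replicate k Letter.a ++ X ++ List.replicate k Letter.a) ++ [Letter.b]) := by
  induction k generalizing X with
  | zero => exact ⟨0, by simpa using Reach.refl _⟩
  | succ k ih =>
    have e1 : List.replicate (k + 1) Letter.a = List.replicate k Letter.a ++ [Letter.a] :=
      List.replicate_succ'
    have e2 : List.replicate (k + 1) Letter.a = [Letter.a] ++ List.replicate k Letter.a := rfl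
    obtain ⟨n, hn⟩ := ih ([Letter.a] ++ X ++ [Letter.a])
    have h1 : Step (List.replicate (k + 1) Letter.a ++ [Letter.b] ++ X ++ [Letter.b] ++ List.replicate (k + 1) Letter.a)
        (List.replicate k Letter.a ++ [Letter.b] ++ ([Letter.a] ++ X ++ [Letter.a]) ++ [Letter.b] ++ List.replicate k Letter.a) := by
      refine ⟨List.replicate k Letter.a, _, _, List.replicate k Letter.a, Or.inl (Rule.ab X), ?_, ?_⟩
      · nth_rewrite 2 [e2]
        rw [e1]
        simp only [List.append_assoc, List.cons_append, List.nil_append]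
      · simp only [List.append_assoc, List.cons_append, List.nil_append]
    refine ⟨0 + 1 + n, ?_⟩
    have h2 := (Reach.tail (Reach.refl _) h1).trans hn
    have e3 : [Letter.b] ++ (List.replicate (k + 1) Letter.a ++ X ++ List.replicate (k + 1) Letter.a) ++ [Letter.b] =
        [Letter.b] ++ (List.replicate k Letter.a ++ ([Letter.a] ++ X ++ [Letter.a]) ++ List.replicate k Letter.a) ++ [Letter.b] := by
      nth_rewrite 2 [e2]
      rw [e1]
      simp only [List.append_assoc, List.cons_append, List.nil_append]
    rw [e3]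
    exact h2

theorem phase3 (k : ℕ) (Y : Word) : ∀ p r : Word, ∃ n, Reach n
    (p ++ ([Letter.b] ++ (List.replicate k Letter.c ++ Y ++ List.replicate k Letter.c) ++ [Letter.b]) ++ r)
    (p ++ (List.replicate k Letter.c ++ [Letter.b] ++ Y ++ [Letter.b] ++ List.replicate k Letter.c) ++ r) := by
  induction k with
  | zero => intro p r; exact ⟨0, by simpa using Reach.refl _⟩
  | succ k ih =>
    intro p r
    have e1 : List.replicate (k + 1) Letter.c = List.replicate k Letter.c ++ [Letter.c] :=
      List.replicate_succ'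
    have e2 : List.replicate (k + 1) Letter.c = [Letter.c] ++ List.replicate k Letter.c := rfl
    obtain ⟨n, hn⟩ := ih (p ++ [Letter.c]) ([Letter.c] ++ r)
    have h1 : Step
        (p ++ ([Letter.b] ++ (List.replicate (k + 1) Letter.c ++ Y ++ List.replicate (k + 1) Letter.c) ++ [Letter.b]) ++ r)
        ((p ++ [Letter.c]) ++ ([Letter.b] ++ (List.replicate k Letter.c ++ Y ++ List.replicate k Letter.c) ++ [Letter.b]) ++
          ([Letter.c] ++ r)) := by
      refine ⟨p, _, _, r,
        Or.inl (Rule.bc (List.replicate k Letter.c ++ Y ++ List.replicate k Letter.c)), ?_, ?_⟩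
      · nth_rewrite 2 [e1]
        rw [e2]
        simp only [List.append_assoc, List.cons_append, List.nil_append]
      · simp only [List.append_assoc, List.cons_append, List.nil_append]
    refine ⟨0 + 1 + n, ?_⟩
    have h2 := (Reach.tail (Reach.refl _) h1).trans hn
    have e3 : p ++ (List.replicate (k + 1) Letter.c ++ [Letter.b] ++ Y ++ [Letter.b] ++
          List.replicate (k + 1) Letter.c) ++ r =
        (p ++ [Letter.c]) ++ (List.replicate k Letter.c ++ [Letter.b] ++ Y ++ [Letter.b] ++ List.replicate k Letter.c) ++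
          ([Letter.c] ++ r) := by
      nth_rewrite 2 [e1]
      rw [e2]
      simp only [List.append_assoc, List.cons_append, List.nil_append]
    rw [e3]
    exact h2

/-- The start word. -/
def startW (m : ℕ) : Word :=
  List.replicate m Letter.a ++ [Letter.b] ++ ([Letter.a] ++ List.replicate (2 * m + 1) Letter.c) ++ [Letter.b] ++
    List.replicate m Letter.a

/-- The end word. -/
def endW (m : ℕ) : Word :=
  List.replicate m Letter.c ++ [Letter.b] ++ (List.replicate (2 * m + 1) Letter.a ++ [Letter.c]) ++ [Letter.b] ++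
    List.replicate m Letter.c

theorem connected (m : ℕ) : ∃ n, Reach n (startW m) (endW m) := by
  obtain ⟨n1, h1⟩ := phase1 m ([Letter.a] ++ List.replicate (2 * m + 1) Letter.c)
  obtain ⟨n3, h3⟩ := phase3 m (List.replicate (2 * m + 1) Letter.a ++ [Letter.c]) [] []
  have hp : (List.replicate m Letter.a ++ ([Letter.a] ++ List.replicate (2 * m + 1) Letter.c) ++
      List.replicate m Letter.a).Perm
      (List.replicate m Letter.c ++ (List.replicate (2 * m + 1) Letter.a ++ [Letter.c]) ++
        List.replicate m Letter.c) := by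
    rw [List.perm_iff_count]
    intro x
    cases x <;> simp [List.count_replicate, List.count_cons] <;> ring
  obtain ⟨n2, h2⟩ := perm_reach hp (by simp) [Letter.b] [Letter.b]
  rw [List.nil_append, List.append_nil, List.nil_append, List.append_nil] at h3
  exact ⟨_, (h1.trans h2).trans h3⟩

theorem cnt_replicate (x y : Letter) (k : ℕ) :
    cnt [x] (List.replicate k y) = if x = y then k else 0 := by
  induction k with
  | zero => simp
  | succ k ih =>
    rw [List.replicate_succ, cnt_cons_cons, ih, cnt_nil]
    split_ifs <;> rfl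

theorem cnt_replicate_b (y : Letter) (hy : y ≠ Letter.b) (k : ℕ) (u : Word) (hu : Letter.b ∈ u) :
    cnt u (List.replicate k y) = 0 :=
  cnt_zero _ (by rw [cnt_replicate, if_neg (Ne.symm hy)]) u hu

theorem startW_cls (m : ℕ) : Cls (2 * m + 1) (startW m) ∧ cnt [Letter.b, Letter.a, Letter.b] (startW m) = 1 := by
  have ea := cnt_replicate_b Letter.a (by simp)
  have ec := cnt_replicate_b Letter.c (by simp)
  refine ⟨⟨?_, ?_, ?_, ?_⟩, ?_⟩ <;>
  · simp [startW, cnt1_append, cnt2_append, cnt3_append, cnt_cons_cons, ea, ec, cnt_replicate]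
    try ring

theorem endW_cls (m : ℕ) :
    Cls (2 * m + 1) (endW m) ∧ cnt [Letter.b, Letter.a, Letter.b] (endW m) = 2 * m + 1 := by
  have ea := cnt_replicate_b Letter.a (by simp)
  have ec := cnt_replicate_b Letter.c (by simp)
  refine ⟨⟨?_, ?_, ?_, ?_⟩, ?_⟩ <;>
  · simp [endW, cnt1_append, cnt2_append, cnt3_append, cnt_cons_cons, ea, ec, cnt_replicate]
    try ring

/-! ### Distances -/

theorem dist_le {n : ℕ} {w w' : Word} (h : Reach n w w') : dist w w' ≤ n := Nat.sInf_le h

theorem reach_dist {w w' : Word} (h : ∃ n, Reach n w w') : Reach (dist w w') w w' :=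
  Nat.sInf_mem (s := {n | Reach n w w'}) h

theorem eq_of_reach_zero {w w' : Word} (h : Reach 0 w w') : w = w' := by
  cases h
  rfl

/-- For every `N` there is an irreducible transformation of some order `n ≥ N` which is not
expressible by irreducible transformations of order less than `n`. -/
theorem result : ∀ N : ℕ, ∃ n ≥ N, ∃ w w' : Word,
    IrreducibleOfOrder n w w' ∧ ¬ ExpressibleBelow n w w' := by
  intro N
  obtain ⟨q, hqN, hq⟩ := Nat.exists_infinite_primes (2 * N + 3)
  obtain ⟨m, hm⟩ : ∃ m, q = 2 * m + 1 := (hq.odd_of_ne_two (by omega))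
  have hex : ∃ n, ∃ w w', Cls q w ∧ Cls q w' ∧ cnt [Letter.b, Letter.a, Letter.b] w = 1 ∧
      cnt [Letter.b, Letter.a, Letter.b] w' = q ∧ Reach n w w' := by
    obtain ⟨n, hn⟩ := connected m
    refine ⟨n, startW m, endW m, ?_, ?_, ?_, ?_, hn⟩
    · exact hm ▸ (startW_cls m).1
    · exact hm ▸ (endW_cls m).1
    · exact (startW_cls m).2
    · rw [hm]; exact (endW_cls m).2
  classical
  let n := Nat.find hex
  obtain ⟨w, w', hw, hw', h1, h2, hr⟩ := Nat.find_spec hex
  have hmin : ∀ k u u', Cls q u → Cls q u' → cnt [Letter.b, Letter.a, Letter.b] u = 1 →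
      cnt [Letter.b, Letter.a, Letter.b] u' = q → Reach k u u' → n ≤ k := by
    intro k u u' a1 a2 a3 a4 a5
    exact Nat.find_min' hex ⟨u, u', a1, a2, a3, a4, a5⟩
  have hbig := reach_bab hr hw.1
  have hN : n ≥ N := by
    have : q ≤ 1 + 2 * n := by
      rw [h1, h2] at hbig
      exact hbig
    omega
  have hd : dist w w' = n := by
    apply le_antisymm (dist_le hr)
    exact hmin _ _ _ hw hw' h1 h2 (reach_dist ⟨_, hr⟩)
  have hocc : occ [Letter.a, Letter.b, Letter.c] w = occ [Letter.a, Letter.b, Letter.c] w' := by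
    rw [occ_eq_cnt, occ_eq_cnt]
    have e1 := hw.2.2.2
    have e2 := hw'.2.2.2
    omega
  have hq1 : q ≠ 1 := hq.one_lt.ne'
  refine ⟨n, hN, w, w', ⟨?_, ⟨⟨_, hr⟩, hocc⟩, ?_, hd⟩, ?_⟩
  · rintro rfl
    rw [h1] at h2
    exact hq1 h2.symm
  · rintro ⟨v, hv1, hv2, hp1, hp2, hsum⟩
    have hv : Cls q v := hw.of_trans hp1
    rw [hd] at hsum
    rcases hv.dichotomy hq with hc | hc
    · have e1 := hmin _ _ _ hv hw' hc h2 (reach_dist hp2.1)
      have e2 : dist w v = 0 := by omega
      have e3 := reach_dist hp1.1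
      rw [e2] at e3
      exact hv1 (eq_of_reach_zero e3).symm
    · have e1 := hmin _ _ _ hw hv h1 hc (reach_dist hp1.1)
      have e2 : dist v w' = 0 := by omega
      have e3 := reach_dist hp2.1
      rw [e2] at e3
      exact hv2 (eq_of_reach_zero e3)
  · intro hchain
    have key : ∀ u, Relation.ReflTransGen (fun u v => ∃ m < n, IrreducibleOfOrder m u v) w u →
        Cls q u ∧ cnt [Letter.b, Letter.a, Letter.b] u = 1 := by
      intro u hu
      induction hu with
      | refl => exact ⟨hw, h1⟩
      | tail _ hs ih =>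
        obtain ⟨k, hk, -, hp, -, hdk⟩ := hs
        have hc := ih.1.of_trans hp
        refine ⟨hc, ?_⟩
        rcases hc.dichotomy hq with h | h
        · exact h
        · exfalso
          have := hmin _ _ _ ih.1 hc ih.2 h (reach_dist hp.1)
          omega
    have := (key w' hchain).2
    rw [h2] at this
    exact hq1 this

end Pool.Agent.Results.MP_24e294_lc.Indispensable
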